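import Mathlib
import Pool.Agent.Helper336.AdjFin3

/-!
# Subadditivity of adjoint ideals fails on affine four-space over every field of characteristic two
with more than two elements

The starting result `NotSubadditive` says that subadditivity fails in some regular local ring. Here
`k` is ANY field of characteristic two and `ω` ANY element of `k` other than `0` and `1`, and the
ring is the localization `R k` of `k[x₀, x₁, x₂, x₃]` at the origin. With `f` the product of the
seven linear forms over the prime field in `x₀, x₁, x₂`, the ideals are `I = (f, x₃³)` and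
`J = (x₂, x₁ + ω x₀)²`, and `w = x₀² x₂ (x₀ + x₂)` lies in `adj(IJ)` and not in `adj(I) adj(J)`.

`adj` is Lipman's adjoint ideal (`Pool.Agent.Helper336.AdjDefs`).
-/

set_option autoImplicit false

open MvPolynomial

namespace Pool.Agent.Results.MP_4583ef_ag.EveryFieldCharTwo

open Pool.Agent.Helper336.Adj

/-- The local ring of affine four-space over `k` at the origin. -/
abbrev R (k : Type) [Field k] : Type := Localization.AtPrime (mm k)

/-- The image of a polynomial in the local ring of affine four-space at the origin. -/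
noncomputable def im (k : Type) [Field k] (p : PA k) : R k := algebraMap (PA k) (R k) p

/-- The product of the seven linear forms in `x₀, x₁, x₂` over the prime field. -/
noncomputable def f (k : Type) [Field k] : PA k :=
  X 0 * X 1 * X 2 * (X 0 + X 1) * (X 1 + X 2) * (X 0 + X 2) * (X 0 + X 1 + X 2)

/-- The ideal `(f, x₃³)`. -/
noncomputable def I (k : Type) [Field k] : Ideal (R k) := Ideal.span {im k (f k), im k (X 3 ^ 3)}

/-- The ideal `(x₂, x₁ + ω x₀)²`. -/
noncomputable def J (k : Type) [Field k] (ω : k) : Ideal (R k) :=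
  Ideal.span {im k (X 2), im k (X 1 + C ω * X 0)} ^ 2

/-- The element `x₀² x₂ (x₀ + x₂)`. -/
noncomputable def w (k : Type) [Field k] : R k := im k (X 0 ^ 2 * X 2 * (X 0 + X 2))

/-- The nonzero ideals `A`, `B` violate the subadditivity of adjoints at the element `x`. -/
def ViolatedAt {S : Type} [CommRing S] [IsDomain S] (A B : Ideal S) (x : S) : Prop :=
  A ≠ ⊥ ∧ B ≠ ⊥ ∧ x ∈ adj S (A * B) ∧ x ∉ adj S A * adj S B

lemma w_mem (k : Type) [Field k] [CharP k 2] (ω : k) (h0 : ω ≠ 0) (h1 : ω ≠ 1) :
    algebraMap (PA k) (RR k) (ww k) ∈ adj (RR k) (II k * JJ k ω) := by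
  intro V _ _ _ _ _ _ _ _
  rw [← tsub_le_iff_left]
  refine le_iInf₂ fun b hb => ?_
  rw [tsub_le_iff_left]
  obtain ⟨a, ha, hab⟩ := mem_main k ω h0 h1 V (FractionRing (RR k)) b hb
  exact le_trans (iInf₂_le a ha) hab

lemma im_ne_zero (k : Type) [Field k] (p : PA k) (hp : p ≠ 0) : im k p ≠ 0 := fun h =>
  hp (PA_RR_injective k ((show algebraMap (PA k) (RR k) p = 0 from h).trans (map_zero _).symm))

lemma I_ne_bot (k : Type) [Field k] : I k ≠ ⊥ := by
  intro h
  have h2 : im k (X 3 ^ 3) ∈ I k := Ideal.subset_span (by simp)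
  rw [h, Ideal.mem_bot] at h2
  exact im_ne_zero k _ (pow_ne_zero _ (X_ne_zero _)) h2

lemma J_ne_bot (k : Type) [Field k] (ω : k) : J k ω ≠ ⊥ := by
  intro h
  have h2 : im k (X 2) ^ 2 ∈ J k ω := Ideal.pow_mem_pow (Ideal.subset_span (by simp)) 2
  rw [h, Ideal.mem_bot] at h2
  exact im_ne_zero k _ (X_ne_zero _) (pow_eq_zero_iff (two_ne_zero) |>.mp h2)

lemma main (k : Type) [Field k] [CharP k 2] (ω : k) (h0 : ω ≠ 0) (h1 : ω ≠ 1) :
    ViolatedAt (I k) (J k ω) (w k) :=
  ⟨I_ne_bot k, J_ne_bot k ω, w_mem k ω h0 h1, not_mem_main k ω h0 h1⟩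

lemma reg (k : Type) [Field k] : IsRegularLocalRing (R k) := inferInstance

lemma exists_omega (k : Type) [Field k] (hc : Nat.card k ≠ 2) : ∃ ω : k, ω ≠ 0 ∧ ω ≠ 1 := by
  by_contra hne
  push Not at hne
  apply hc
  have hset : (Set.univ : Set k) = {0, 1} := by
    ext x
    by_cases hx : x = 0
    · simp [hx]
    · simp [hne x hx]
  have : Nat.card k = Set.ncard (Set.univ : Set k) := (Set.ncard_univ k).symm
  rw [this, hset]
  exact Set.ncard_pair zero_ne_one

/-- **Subadditivity of adjoint ideals fails in the local ring of affine four-space at the origin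
over every field of characteristic two other than the field with two elements**, with an explicit
family of ideals (one for every `ω ≠ 0, 1`) and an explicit element. -/
theorem result (k : Type) [Field k] [CharP k 2] :
    IsRegularLocalRing (R k) ∧
      (∀ ω : k, ω ≠ 0 → ω ≠ 1 → ViolatedAt (I k) (J k ω) (w k)) ∧
      (Nat.card k ≠ 2 → ∃ (A B : Ideal (R k)) (x : R k), ViolatedAt A B x) := by
  refine ⟨reg k, main k, fun hc => ?_⟩
  obtain ⟨ω, h0, h1⟩ := exists_omega k hc
  exact ⟨I k, J k ω, w k, main k ω h0 h1⟩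

end Pool.Agent.Results.MP_4583ef_ag.EveryFieldCharTwo
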